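import Pool.Agent.V7H56.HW.Main

/-!
# Rich sets of words; factors; counting functions
-/

set_option autoImplicit false

open MvPolynomial Module Filter

namespace Pool.Agent.V7H56.HW

open Pool.Agent.V7H32.MZ Pool.Agent.V7H32.MH

/-- `S` is rich: for every `C` there are more than `C` weights in an interval `[a, a + B]` with
`C (B + 1) ≤ a`, such that for each of these weights `n` at most `2 ^ (-C (B + 1))` times the number
of the words of weight `n` of these words are not in `S`. -/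
def Rich (S : Set (List ℕ)) : Prop :=
  ∀ C : ℕ, ∃ (I : Finset ℕ) (a B : ℕ), C < I.card ∧ (∀ n ∈ I, a ≤ n ∧ n ≤ a + B) ∧
    C * (B + 1) ≤ a ∧ ∀ n ∈ I, 2 ^ (C * (B + 1)) * {l : List ℕ | IsWord l ∧ l.sum = n ∧ l ∉ S}.ncard ≤
      {l : List ℕ | IsWord l ∧ l.sum = n}.ncard

variable (M : Motivic)

include M in
/-- **Rich sets of words.** -/
theorem rich (hB : Brown) (S : Set (List ℕ)) (hS : ∀ l ∈ S, IsWord l) (hR : Rich S) :
    HoffmanBasis ↔ LinearIndependent ℚ (fun l : S => val l) := by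
  classical
  constructor
  · intro h
    have h1 : LinearIndepOn ℚ val {l : List ℕ | IsWord l} := h.1
    exact h1.mono fun l hl => hS l hl
  · intro hLI
    refine hoffman_of_zagier M hB ((zagier_iff_injective M).2 ?_)
    by_contra hcon
    push Not at hcon
    obtain ⟨P, hP0, hP⟩ := hcon
    obtain ⟨k, hk, hrel⟩ := cluster_relations M hP hP0
    obtain ⟨c, hc⟩ : ∃ c, c = 3 ^ k * k := ⟨_, rfl⟩
    obtain ⟨I₁, a, B, hI₁, hI₁a, haB, hout⟩ := hR (c + k + 2)
    obtain ⟨I', hI'sub, hI'card⟩ := Finset.exists_subset_card_eq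
      (show k + 1 ≤ I₁.card by omega)
    have ha_le : ∀ n ∈ I', a ≤ n := fun n hn => (hI₁a n (hI'sub hn)).1
    have hle_max : ∀ n ∈ I', n ≤ a + B := fun n hn => (hI₁a n (hI'sub hn)).2
    have hcB : 3 ^ k * (k * (B + 1)) = c * B + c := by
      rw [hc]
      ring
    have hE : (c + k + 2) * (B + 1) = c * B + c + (k + 2) * B + (k + 2) := by ring
    have hkB : 2 * B ≤ (k + 2) * B := Nat.mul_le_mul_right B (by omega)
    have himg : (I'.image (fun n => n - a)).image (fun b => a + b) = I' := by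
      rw [Finset.image_image]
      conv_rhs => rw [← Finset.image_id (s := I')]
      refine Finset.image_congr fun n hn => ?_
      have := ha_le n hn
      simp only [Function.comp, id]
      omega
    have hcardimg : k < (I'.image (fun n => n - a)).card := by
      rw [Finset.card_image_of_injOn, hI'card]
      · exact Nat.lt_succ_self k
      · intro x hx y hy hxy
        have h1 := ha_le x hx
        have h2 := ha_le y hy
        have h3 : x - a = y - a := hxy
        omega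
    obtain ⟨Γ, hΓ, hdim⟩ := hrel (I'.image (fun n => n - a)) B a hcardimg
      (fun b hb => by
        obtain ⟨n, hn, rfl⟩ := Finset.mem_image.1 hb
        have := hle_max n hn
        show n - a ≤ B
        omega)
      (by rw [hcB]; omega)
    rw [himg] at hdim
    rw [hcB] at hΓ
    have hT : {l ∈ S | IsWord l ∧ l.sum ∈ I'}.ncard ≤
        finrank ℚ ((U M.w (I' : Set ℕ)).map (f M)) := by
      have h0 := finite_U M I'
      refine ncard_le ((finite_words_le (a + B)).subset fun l hl =>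
        ⟨hl.2.1, hle_max _ hl.2.2⟩) ?_ ?_
      · intro l hl
        exact Z_le_map M (Finset.mem_coe.2 hl.2.2) (val_mem hB hl.2.1)
      · have h3 : LinearIndepOn ℚ val S := hLI
        exact h3.mono fun l hl => hl.1
    have hcount := count S I'
    have h5 : d (a - Γ) ≤ ∑ n ∈ I', (out S n).ncard := by omega
    obtain ⟨N, hN⟩ : ∃ N, a - Γ = N + 2 := ⟨a - Γ - 2, by omega⟩
    have hdn : ∀ n ∈ I', d n ≤ 2 ^ (B + Γ) * d (N + 2) := by
      intro n hn
      have h6 := ha_le n hn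
      have h7 := hle_max n hn
      obtain ⟨m, rfl⟩ : ∃ m, n = N + 2 + m := ⟨n - (N + 2), by omega⟩
      refine (d_add_le N m).trans (Nat.mul_le_mul_right _ ?_)
      exact Nat.pow_le_pow_right (by norm_num) (by omega)
    have hdpos : 0 < d (N + 2) := d_pos N
    obtain ⟨E, hEdef⟩ : ∃ E, E = (c + k + 2) * (B + 1) := ⟨_, rfl⟩
    have h6 : 2 ^ E * d (N + 2) ≤ (k + 1) * (2 ^ (B + Γ) * d (N + 2)) := by
      rw [hN] at h5
      calc 2 ^ E * d (N + 2) ≤ 2 ^ E * ∑ n ∈ I', (out S n).ncard := Nat.mul_le_mul_left _ h5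
        _ = ∑ n ∈ I', 2 ^ E * (out S n).ncard := Finset.mul_sum _ _ _
        _ ≤ ∑ n ∈ I', 2 ^ (B + Γ) * d (N + 2) := by
          refine Finset.sum_le_sum fun n hn => ?_
          have h7 := hout n (hI'sub hn)
          rw [ncard_eq, ← hEdef] at h7
          exact h7.trans (hdn n hn)
        _ = _ := by rw [Finset.sum_const, hI'card, smul_eq_mul]
    have h7 : k + 1 < 2 ^ (k + 1) := Nat.lt_two_pow_self
    have h8 : (k + 1) * (2 ^ (B + Γ) * d (N + 2)) < 2 ^ E * d (N + 2) := by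
      rw [← mul_assoc]
      refine Nat.mul_lt_mul_of_pos_right ?_ hdpos
      calc (k + 1) * 2 ^ (B + Γ) < 2 ^ (k + 1) * 2 ^ (B + Γ) :=
            Nat.mul_lt_mul_of_pos_right h7 (by positivity)
        _ = 2 ^ (k + 1 + (B + Γ)) := (pow_add _ _ _).symm
        _ ≤ 2 ^ E := Nat.pow_le_pow_right (by norm_num) (by omega)
    omega

/-! ### The words with a given factor -/

/-- Exponentially few words avoid a factor. -/
lemma avoid_exp {u : List ℕ} (hu : IsWord u) : ∃ (θ : ℝ) (K : ℕ), 0 ≤ θ ∧ θ < 1 ∧ 0 < K ∧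
    ∀ j n : ℕ, j * K ≤ n → ((avoid u n).card : ℝ) ≤ θ ^ j * d n := by
  obtain ⟨k, hk⟩ : ∃ k, k = u.sum + 2 := ⟨_, rfl⟩
  obtain ⟨B, hB⟩ : ∃ B : ℝ, B = d k + d (k + 1) + d (k + 2) := ⟨_, rfl⟩
  have hB1 : 1 ≤ B := by
    have h1 : 0 < d (k + 2) := d_pos k
    have h2 : (1 : ℝ) ≤ d (k + 2) := by exact_mod_cast h1
    have h3 : (0 : ℝ) ≤ d k := Nat.cast_nonneg _
    have h4 : (0 : ℝ) ≤ d (k + 1) := Nat.cast_nonneg _
    rw [hB]
    linarith
  have hB0 : 0 < B := by linarith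
  obtain ⟨θ, hθ⟩ : ∃ θ : ℝ, θ = 1 - 1 / B := ⟨_, rfl⟩
  have hθ0 : 0 ≤ θ := by
    rw [hθ, sub_nonneg, div_le_one hB0]
    exact hB1
  have hθ1 : θ < 1 := by
    rw [hθ]
    have : 0 < 1 / B := by positivity
    linarith
  have hstep (j : ℕ) (hj : k ≤ j) (hjB : (d j : ℝ) ≤ B) : ((avoid u j).card : ℝ) ≤ θ * d j := by
    have h1 : (avoid u j).card + 1 ≤ d j := avoid_card_lt hu (by omega)
    have h2 : ((avoid u j).card : ℝ) + 1 ≤ d j := by exact_mod_cast h1
    have h3 : (d j : ℝ) / B ≤ 1 := (div_le_one hB0).2 hjB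
    have h4 : θ * d j = d j - d j / B := by
      rw [hθ]
      ring
    rw [h4]
    linarith
  have hd0 : ∀ j, (0 : ℝ) ≤ d j := fun j => Nat.cast_nonneg _
  refine ⟨θ, k + 3, hθ0, hθ1, by omega, fun j => ?_⟩
  induction j with
  | zero =>
    intro n _
    rw [pow_zero, one_mul]
    exact_mod_cast avoid_card_le u n
  | succ j ih =>
    intro n hn
    have hmul : (j + 1) * (k + 3) = j * (k + 3) + (k + 3) := by ring
    rw [hmul] at hn
    obtain ⟨n', rfl⟩ : ∃ n', n = k + n' + 3 := ⟨n - k - 3, by omega⟩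
    have h0 : j * (k + 3) ≤ n' := by omega
    have h1 : ((avoid u (k + n' + 3)).card : ℝ) ≤
        (avoid u (k + 1)).card * (avoid u (n' + 2)).card +
        (avoid u (k + 2)).card * (avoid u (n' + 1)).card +
        (avoid u k).card * (avoid u n').card := by exact_mod_cast avoid_rec u k n'
    have h2 : (d (k + n' + 3) : ℝ) = d (k + 1) * d (n' + 2) + d (k + 2) * d (n' + 1) + d k * d n' := by
      exact_mod_cast d_rec k n'
    have g1 := mul_le_mul (hstep (k + 1) (by omega) (by rw [hB]; linarith [hd0 k, hd0 (k + 2)]))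
      (ih (n' + 2) (by omega)) (Nat.cast_nonneg _) (mul_nonneg hθ0 (hd0 _))
    have g2 := mul_le_mul (hstep (k + 2) (by omega) (by rw [hB]; linarith [hd0 k, hd0 (k + 1)]))
      (ih (n' + 1) (by omega)) (Nat.cast_nonneg _) (mul_nonneg hθ0 (hd0 _))
    have g3 := mul_le_mul (hstep k le_rfl (by rw [hB]; linarith [hd0 (k + 1), hd0 (k + 2)]))
      (ih n' (by omega)) (Nat.cast_nonneg _) (mul_nonneg hθ0 (hd0 _))
    rw [h2, pow_succ]
    calc ((avoid u (k + n' + 3)).card : ℝ) ≤ _ := h1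
      _ ≤ _ := add_le_add (add_le_add g1 g2) g3
      _ = _ := by ring

/-- For a word `u` almost all words with weight in `A` have the factor `u`. -/
lemma almostAll_factor {u : List ℕ} (hu : IsWord u) (A : Set ℕ) :
    AlmostAll A {l : List ℕ | IsWord l ∧ u <:+: l ∧ l.sum ∈ A} := by
  classical
  obtain ⟨θ₀, K, h0, h1, hK, h⟩ := avoid_exp hu
  -- a positive base
  obtain ⟨θ, hθ⟩ : ∃ θ, θ = max θ₀ (1 / 2) := ⟨_, rfl⟩
  have hθ0 : 0 < θ := hθ ▸ lt_max_of_lt_right (by norm_num)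
  have hθ1 : θ < 1 := by
    rw [hθ]
    exact max_lt h1 (by norm_num)
  have hK0 : (0 : ℝ) < K := by exact_mod_cast hK
  refine ⟨θ ^ (1 / (K : ℝ)), θ⁻¹, (Real.rpow_pos_of_pos hθ0 _).le,
    Real.rpow_lt_one hθ0.le hθ1 (by positivity), fun n hn => ?_⟩
  have h2 : {l : List ℕ | IsWord l ∧ l.sum = n ∧ l ∉ {l : List ℕ | IsWord l ∧ u <:+: l ∧
      l.sum ∈ A}}.ncard ≤ (avoid u n).card := by
    rw [← Set.ncard_coe_finset]
    refine Set.ncard_le_ncard ?_ (Finset.finite_toSet _)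
    rintro l ⟨h3, h4, h5⟩
    refine Finset.mem_coe.2 (Finset.mem_filter.2 ⟨(mem_words _ l).2 ⟨h3, h4⟩, fun h6 => ?_⟩)
    exact h5 ⟨h3, h6, h4.symm ▸ hn⟩
  rw [ncard_eq]
  have h3 : ((avoid u n).card : ℝ) ≤ θ₀ ^ (n / K) * d n := h (n / K) n (Nat.div_mul_le_self n K)
  have h4 : θ₀ ^ (n / K) ≤ θ ^ (n / K) := pow_le_pow_left₀ h0 (hθ ▸ le_max_left _ _) _
  have h5 : θ ^ (n / K) ≤ θ⁻¹ * (θ ^ (1 / (K : ℝ))) ^ n := by
    rw [← Real.rpow_natCast (θ ^ (1 / (K : ℝ))) n, ← Real.rpow_mul hθ0.le,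
      ← Real.rpow_natCast θ (n / K), ← Real.rpow_neg_one θ, ← Real.rpow_add hθ0]
    refine Real.rpow_le_rpow_of_exponent_ge hθ0 hθ1.le ?_
    have h6 : n < K * (n / K + 1) := Nat.lt_mul_div_succ n hK
    have h7 : (n : ℝ) < K * (((n / K : ℕ) : ℝ) + 1) := by exact_mod_cast h6
    have h8 : 1 / (K : ℝ) * n ≤ ((n / K : ℕ) : ℝ) + 1 := by
      rw [one_div, inv_mul_le_iff₀ hK0]
      exact h7.le
    linarith
  calc (_ : ℝ) ≤ (avoid u n).card := by exact_mod_cast h2
    _ ≤ θ₀ ^ (n / K) * d n := h3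
    _ ≤ θ⁻¹ * (θ ^ (1 / (K : ℝ))) ^ n * d n :=
      mul_le_mul_of_nonneg_right (h4.trans h5) (Nat.cast_nonneg _)

/-! ### Counting functions -/

/-- A set of natural numbers whose counting function is not `O(log N)` has arbitrarily large
clusters. -/
lemma clustered_of_counting {A : Set ℕ}
    (h : ∀ K : ℝ, ∃ N : ℕ, 2 ≤ N ∧ K * Real.log N < {n ∈ A | n ≤ N}.ncard) : Clustered A := by
  classical
  intro k N₀ ε hε
  obtain ⟨c, hc⟩ : ∃ c, c = ⌈1 / ε⌉₊ + 1 := ⟨_, rfl⟩
  have hc0 : 0 < c := by omega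
  have hc1 : 1 / (c : ℝ) ≤ ε := by
    rw [one_div_le (by exact_mod_cast hc0) hε, hc]
    push_cast
    have := Nat.le_ceil (1 / ε)
    linarith
  obtain ⟨N, hN2, hN⟩ := h ((2 * (c * k) + (N₀ + 1)) / Real.log 2)
  have hl2 : 0 < Real.log 2 := Real.log_pos (by norm_num)
  have hlN : Real.log 2 ≤ Real.log N := Real.log_le_log (by norm_num) (by exact_mod_cast hN2)
  have hlog : (Nat.log 2 N : ℝ) * Real.log 2 ≤ Real.log N := by
    have h1 := Real.natLog_le_logb N 2
    rw [Real.logb, le_div_iff₀ (by exact_mod_cast hl2)] at h1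
    exact_mod_cast h1
  have hfin : {n ∈ A | n ≤ N}.Finite := (Set.finite_Iic N).subset fun n hn => hn.2
  obtain ⟨s, hs⟩ : ∃ s : Finset ℕ, s = hfin.toFinset.filter (fun n => N₀ + 1 ≤ n) := ⟨_, rfl⟩
  have hmem : ∀ n ∈ s, n ∈ A ∧ n ≤ N ∧ N₀ + 1 ≤ n := fun n hn => by
    rw [hs, Finset.mem_filter, Set.Finite.mem_toFinset] at hn
    exact ⟨hn.1.1, hn.1.2, hn.2⟩
  have hcount : {n ∈ A | n ≤ N}.ncard ≤ s.card + (N₀ + 1) := by
    rw [Set.ncard_eq_toFinset_card _ hfin, hs,
      ← Finset.card_filter_add_card_filter_not (fun n => N₀ + 1 ≤ n)]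
    refine Nat.add_le_add_left ?_ _
    refine (Finset.card_le_card (t := Finset.range (N₀ + 1)) fun n hn => ?_).trans
      (Finset.card_range _).le
    rw [Finset.mem_range]
    exact not_le.1 (Finset.mem_filter.1 hn).2
  have hpig : (Finset.range (Nat.log 2 N + 1) ×ˢ Finset.range c).card * k < s.card := by
    rw [Finset.card_product, Finset.card_range, Finset.card_range]
    have h2 : ((2 * (c * k) + (N₀ + 1)) : ℝ) ≤
        (2 * (c * k) + (N₀ + 1)) / Real.log 2 * Real.log N := by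
      rw [div_mul_eq_mul_div, le_div_iff₀ hl2]
      exact mul_le_mul_of_nonneg_left hlN (by positivity)
    have h3 : ((Nat.log 2 N : ℝ) + 1) * c * k + (N₀ + 1) ≤
        (2 * (c * k) + (N₀ + 1)) / Real.log 2 * Real.log N := by
      rw [div_mul_eq_mul_div, le_div_iff₀ hl2]
      have h4 : (0 : ℝ) ≤ c * k := by positivity
      have h5 : (0 : ℝ) ≤ (N₀ : ℝ) + 1 := by positivity
      nlinarith
    have h4 : (((Nat.log 2 N + 1) * c * k + (N₀ + 1) : ℕ) : ℝ) < ((s.card + (N₀ + 1) : ℕ) : ℝ) := by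
      refine lt_of_le_of_lt ?_ (lt_of_lt_of_le hN (by exact_mod_cast hcount))
      push_cast
      exact h3
    have h5 : (Nat.log 2 N + 1) * c * k + (N₀ + 1) < s.card + (N₀ + 1) := by exact_mod_cast h4
    omega
  obtain ⟨y, _, hy⟩ := Finset.exists_lt_card_fiber_of_mul_lt_card_of_maps_to
    (f := fun n => (Nat.log 2 n, c * (n - 2 ^ Nat.log 2 n) / 2 ^ Nat.log 2 n)) (fun n hn => by
      obtain ⟨_, h2, h3⟩ := hmem n hn
      rw [Finset.mem_product, Finset.mem_range, Finset.mem_range]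
      have h2' : Nat.log 2 n ≤ Nat.log 2 N := Nat.log_mono_right h2
      refine ⟨Nat.lt_succ_of_le h2', ?_⟩
      rw [Nat.div_lt_iff_lt_mul (by positivity)]
      have h4 : n < 2 ^ (Nat.log 2 n + 1) := Nat.lt_pow_succ_log_self (by norm_num) n
      rw [pow_succ] at h4
      exact Nat.mul_lt_mul_of_pos_left (by omega) hc0) hpig
  refine ⟨_, hy, fun n hn => ?_, fun m hm n hn => ?_⟩
  · obtain ⟨h1, _, h3⟩ := hmem n (Finset.mem_filter.1 hn).1
    exact ⟨h1, by omega⟩
  · obtain ⟨hm1, hm2⟩ := Finset.mem_filter.1 hm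
    obtain ⟨hn1, hn2⟩ := Finset.mem_filter.1 hn
    rw [← hm2, Prod.mk.injEq] at hn2
    obtain ⟨e1, e2⟩ := hn2
    rw [e1] at e2
    obtain ⟨j, hj⟩ : ∃ j, j = Nat.log 2 m := ⟨_, rfl⟩
    rw [← hj] at e1 e2
    have hm3 : 2 ^ j ≤ m := hj ▸ Nat.pow_log_le_self 2 (by have := (hmem m hm1).2.2; omega)
    have hn3 : 2 ^ j ≤ n := e1 ▸ Nat.pow_log_le_self 2 (by have := (hmem n hn1).2.2; omega)
    have h1 : c * (n - 2 ^ j) < 2 ^ j * (c * (n - 2 ^ j) / 2 ^ j + 1) :=
      Nat.lt_mul_div_succ _ (by positivity)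
    have h2 : 2 ^ j * (c * (m - 2 ^ j) / 2 ^ j) ≤ c * (m - 2 ^ j) := Nat.mul_div_le _ _
    rw [e2, Nat.mul_succ] at h1
    have h3 : c * (n - 2 ^ j) < c * (m - 2 ^ j) + 2 ^ j := by omega
    obtain ⟨n', rfl⟩ := Nat.exists_eq_add_of_le hn3
    obtain ⟨m', rfl⟩ := Nat.exists_eq_add_of_le hm3
    rw [Nat.add_sub_cancel_left, Nat.add_sub_cancel_left] at h3
    have h4 : (c : ℝ) * n' < c * m' + 2 ^ j := by exact_mod_cast h3
    have hc0' : (0 : ℝ) < c := by exact_mod_cast hc0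
    have h5 : (n' : ℝ) ≤ m' + 1 / c * 2 ^ j := by
      rw [one_div, ← mul_le_mul_iff_right₀ hc0', mul_add, mul_inv_cancel_left₀ hc0'.ne']
      exact h4.le
    push_cast
    have h6 : 1 / (c : ℝ) * 2 ^ j ≤ ε * 2 ^ j := mul_le_mul_of_nonneg_right hc1 (by positivity)
    have h7 : (0 : ℝ) ≤ ε * m' := by positivity
    nlinarith

/-- The counting function of the set of the `r`-th powers is not `O(log N)`. -/
lemma counting_pow {r : ℕ} (hr : 0 < r) (K : ℝ) :
    ∃ N : ℕ, 2 ≤ N ∧ K * Real.log N < {n ∈ {n : ℕ | ∃ m, n = m ^ r} | n ≤ N}.ncard := by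
  classical
  obtain ⟨T, hT⟩ := exists_nat_gt (max 2 (2 * r * max K 0))
  have hT2 : (2 : ℝ) < T := (le_max_left _ _).trans_lt hT
  have hTK : 2 * r * max K 0 < T := (le_max_right _ _).trans_lt hT
  have hT2' : 2 < T := by exact_mod_cast hT2
  refine ⟨(T ^ 2) ^ r, ?_, ?_⟩
  · calc 2 ≤ T := hT2'.le
      _ ≤ T ^ 2 := Nat.le_self_pow (by norm_num) T
      _ ≤ (T ^ 2) ^ r := Nat.le_self_pow hr.ne' _
  · have hfin : {n ∈ {n : ℕ | ∃ m, n = m ^ r} | n ≤ (T ^ 2) ^ r}.Finite :=
      (Set.finite_Iic ((T ^ 2) ^ r)).subset fun n hn => hn.2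
    have h1 : T ^ 2 ≤ {n ∈ {n : ℕ | ∃ m, n = m ^ r} | n ≤ (T ^ 2) ^ r}.ncard := by
      have h2 : ((Finset.range (T ^ 2)).image (fun m => m ^ r)).card = T ^ 2 := by
        rw [Finset.card_image_of_injective _ (Nat.pow_left_injective hr.ne'), Finset.card_range]
      calc T ^ 2 = ((Finset.range (T ^ 2)).image (fun m => m ^ r)).card := h2.symm
        _ = (((Finset.range (T ^ 2)).image (fun m => m ^ r) : Finset ℕ) : Set ℕ).ncard :=
          (Set.ncard_coe_finset _).symm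
        _ ≤ _ := by
          refine Set.ncard_le_ncard ?_ hfin
          intro n hn
          obtain ⟨m, hm, rfl⟩ := Finset.mem_image.1 (Finset.mem_coe.1 hn)
          exact ⟨⟨m, rfl⟩, Nat.pow_le_pow_left (Finset.mem_range.1 hm).le r⟩
    have h3 : Real.log (((T ^ 2) ^ r : ℕ) : ℝ) = 2 * r * Real.log T := by
      push_cast
      rw [← pow_mul, Real.log_pow]
      push_cast
      ring
    have h4 : Real.log T ≤ T := (Real.log_le_sub_one_of_pos (by linarith)).trans (by linarith)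
    have h5 : 0 ≤ Real.log T := Real.log_nonneg (by linarith)
    rw [h3]
    have h6 : (0 : ℝ) ≤ max K 0 := le_max_right _ _
    have h7 : K ≤ max K 0 := le_max_left _ _
    have hr0 : (0 : ℝ) ≤ r := Nat.cast_nonneg r
    calc K * (2 * r * Real.log T) ≤ max K 0 * (2 * r * Real.log T) :=
          mul_le_mul_of_nonneg_right h7 (by positivity)
      _ = 2 * r * max K 0 * Real.log T := by ring
      _ ≤ 2 * r * max K 0 * T := mul_le_mul_of_nonneg_left h4 (by positivity)
      _ < T * T := mul_lt_mul_of_pos_right hTK (by linarith)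
      _ = ((T ^ 2 : ℕ) : ℝ) := by push_cast; ring
      _ ≤ _ := by exact_mod_cast h1

/-! ### The finite version -/

lemma d_mono_succ : ∀ n : ℕ, d (n + 1) ≤ d (n + 2)
  | 0 => by decide
  | 1 => by decide
  | 2 => by decide
  | n + 3 => by
    have h1 := d_mono_succ n
    have h2 := d_mono_succ (n + 1)
    have h3 : d (n + 3 + 1) = d (n + 1 + 1) + d (n + 1) := rfl
    have h4 : d (n + 3 + 2) = d (n + 1 + 2) + d (n + 2) := rfl
    omega

lemma d_mono {m n : ℕ} (hm : 1 ≤ m) (h : m ≤ n) : d m ≤ d n := by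
  induction n, h using Nat.le_induction with
  | base => exact le_rfl
  | succ n hn ih =>
    refine ih.trans ?_
    obtain ⟨j, rfl⟩ : ∃ j, n = j + 1 := ⟨n - 1, by omega⟩
    exact d_mono_succ j

/-- A relation has positive top weight. -/
lemma top_pos {P : MvPolynomial M.ι ℚ} (hP : P ≠ 0) (hP0 : aeval M.z P = 0) : 0 < top M.w P := by
  by_contra h
  have h0 : P ∈ V M.w 0 := by
    rw [← W_zero]
    exact (mem_W_iff M.w).2 (not_lt.1 h)
  have h1 : finrank ℚ (V M.w 0) = 1 := finrank_V M 0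
  have h2 : (⟨1, one_mem_V M.w⟩ : V M.w 0) ≠ 0 := fun e => one_ne_zero (congrArg Subtype.val e)
  obtain ⟨c, hc⟩ := exists_smul_eq_of_finrank_eq_one h1 h2 ⟨P, h0⟩
  have h3 : c • (1 : MvPolynomial M.ι ℚ) = P := congrArg Subtype.val hc
  rw [← h3, map_smul, map_one, Rat.smul_def, mul_one] at hP0
  have h4 : c = 0 := by exact_mod_cast hP0
  rw [h4, zero_smul] at h3
  exact hP h3.symm

/-- Relations of weight at most `k` produce relations in all clusters of more than `k` weights. -/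
lemma cluster_relations_le {k : ℕ} {P : MvPolynomial M.ι ℚ} (hPk : P ∈ W M.w k) (hP : P ≠ 0)
    (hP0 : aeval M.z P = 0) (I : Finset ℕ) (B a : ℕ) (hI : k < I.card) (hB : ∀ b ∈ I, b ≤ B)
    (ha : 3 ^ k * (k * (B + 1)) ≤ a) : ∃ Γ ≤ 3 ^ k * (k * (B + 1)),
      finrank ℚ ((U M.w ((I.image (fun b => a + b) : Finset ℕ) : Set ℕ)).map (f M)) + d (a - Γ) ≤
        ∑ n ∈ I.image (fun b => a + b), d n := by
  classical
  have hk : top M.w P ≤ k := (mem_W_iff M.w).1 hPk
  obtain ⟨R, Γ, hR, ⟨Q, hQ⟩, hΓ, hRU⟩ := exists_multiple_mem M.w (top_pos M hP hP0)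
    ((mem_W_iff M.w).2 le_rfl) (comp_top_ne M.w hP) I (by omega) B hB
  have hΓ' : Γ ≤ 3 ^ k * (k * (B + 1)) := hΓ.trans (Nat.mul_le_mul
    (Nat.pow_le_pow_right (by norm_num) hk) (Nat.mul_le_mul_right _ hk))
  refine ⟨Γ, hΓ', ?_⟩
  have hR0 : aeval M.z R = 0 := by rw [hQ, map_mul, hP0, zero_mul]
  have h0 := finite_U M (I.image (fun b => a + b))
  have h1 : FiniteDimensional ℚ (U M.w ((I.image (fun b => a + b) : Finset ℕ) : Set ℕ) ⊓
      LinearMap.ker (f M) : Submodule ℚ _) := Submodule.finiteDimensional_inf_left _ _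
  have h2 := finrank_map_add M (U M.w ((I.image (fun b => a + b) : Finset ℕ) : Set ℕ))
  rw [finrank_U] at h2
  rw [← h2]
  refine Nat.add_le_add_left ?_ _
  rw [← finrank_V M (a - Γ)]
  let μ : MvPolynomial M.ι ℚ →ₗ[ℚ] MvPolynomial M.ι ℚ := LinearMap.mulLeft ℚ R
  have hμ : Function.Injective μ := fun a b h => mul_left_cancel₀ hR h
  rw [LinearEquiv.finrank_eq (Submodule.equivMapOfInjective μ hμ _)]
  refine Submodule.finrank_mono ?_
  rintro _ ⟨G, hG, rfl⟩
  constructor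
  · rw [SetLike.mem_coe, V_eq_U] at hG
    refine U_mul M.w ?_ hRU hG
    rintro x ⟨b, hb, rfl⟩ y hy
    rw [Set.mem_singleton_iff] at hy
    rw [Finset.mem_coe, Finset.mem_image]
    exact ⟨b, hb, by omega⟩
  · change aeval M.z (R * G) = 0
    rw [map_mul, hR0, zero_mul]

include M in
/-- **The finite version.** Independent values of the words of any `k + 1` weights in a short
interval give independent values of all the words of weight at most `k`. -/
theorem one_cluster (hB : Brown) {k a B : ℕ} (I : Finset ℕ) (hI : k < I.card)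
    (hIa : ∀ n ∈ I, a ≤ n ∧ n ≤ a + B) (ha : 3 ^ k * (k * (B + 1)) < a) (T : Set (List ℕ))
    (hT : ∀ l ∈ T, IsWord l ∧ l.sum ∈ I)
    (hcard : ∑ n ∈ I, {l : List ℕ | IsWord l ∧ l.sum = n}.ncard < T.ncard +
      {l : List ℕ | IsWord l ∧ l.sum = a - 3 ^ k * (k * (B + 1))}.ncard)
    (h : LinearIndependent ℚ (fun l : T => val l)) :
    LinearIndependent ℚ (fun l : {l : List ℕ | IsWord l ∧ l.sum ≤ k} => val l) := by
  classical
  refine independent_of_finrank hB ?_
  by_contra hcon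
  have hker : W M.w k ⊓ LinearMap.ker (f M) ≠ ⊥ := by
    intro h0
    have := finite_W M k
    have h1 := finrank_map_add M (W M.w k)
    rw [map_W, h0, finrank_bot, finrank_W, add_zero] at h1
    exact hcon h1
  obtain ⟨P, hP, hP0⟩ := Submodule.exists_mem_ne_zero_of_ne_bot hker
  have himg : (I.image (fun n => n - a)).image (fun b => a + b) = I := by
    rw [Finset.image_image]
    conv_rhs => rw [← Finset.image_id (s := I)]
    refine Finset.image_congr fun n hn => ?_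
    have := (hIa n hn).1
    simp only [Function.comp, id]
    omega
  have hcardimg : k < (I.image (fun n => n - a)).card := by
    rw [Finset.card_image_of_injOn]
    · exact hI
    · intro x hx y hy hxy
      have h1 := (hIa x hx).1
      have h2 := (hIa y hy).1
      have h3 : x - a = y - a := hxy
      omega
  obtain ⟨Γ, hΓ, hdim⟩ := cluster_relations_le M hP.1 hP0 hP.2 (I.image (fun n => n - a)) B a
    hcardimg (fun b hb => by
      obtain ⟨n, hn, rfl⟩ := Finset.mem_image.1 hb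
      have := (hIa n hn).2
      show n - a ≤ B
      omega) ha.le
  rw [himg] at hdim
  have hTle : T.ncard ≤ finrank ℚ ((U M.w (I : Set ℕ)).map (f M)) := by
    have h0 := finite_U M I
    refine ncard_le ((finite_words_le (a + B)).subset fun l hl =>
      ⟨(hT l hl).1, (hIa _ (hT l hl).2).2⟩) (fun l hl => ?_) h
    exact Z_le_map M (Finset.mem_coe.2 (hT l hl).2) (val_mem hB (hT l hl).1)
  rw [ncard_eq, Finset.sum_congr rfl fun n _ => ncard_eq n] at hcard
  have h5 : d (a - 3 ^ k * (k * (B + 1))) ≤ d (a - Γ) := d_mono (by omega) (by omega)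
  have h6 : ∑ n ∈ I, d n < T.ncard + d (a - 3 ^ k * (k * (B + 1))) := hcard
  have h7 := hdim.trans_lt (h6.trans_le (Nat.add_le_add hTle h5))
  exact lt_irrefl _ h7

end Pool.Agent.V7H56.HW
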