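import Pool.Agent.V7H32.MH.Main

/-!
# Multiples of a polynomial with prescribed weights
-/

set_option autoImplicit false

open MvPolynomial Module

namespace Pool.Agent.V7H56.HW

open Pool.Agent.V7H32.MZ Pool.Agent.V7H32.MH

variable {ι : Type} (w : ι → ℕ)

lemma V_mul {m n : ℕ} {P Q : MvPolynomial ι ℚ} (hP : P ∈ V w m) (hQ : Q ∈ V w n) :
    P * Q ∈ V w (m + n) := by
  rw [mem_weightedHomogeneousSubmodule] at hP hQ ⊢
  exact hP.mul hQ

lemma one_mem_V : (1 : MvPolynomial ι ℚ) ∈ V w 0 := by
  rw [mem_weightedHomogeneousSubmodule]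
  exact isWeightedHomogeneous_one ℚ w

lemma V_pow {m : ℕ} {P : MvPolynomial ι ℚ} (hP : P ∈ V w m) (b : ℕ) : P ^ b ∈ V w (b * m) := by
  induction b with
  | zero =>
    rw [pow_zero, Nat.zero_mul]
    exact one_mem_V w
  | succ b ih =>
    rw [pow_succ, Nat.succ_mul]
    exact V_mul w ih hP

/-- A homogeneous linear relation between more than `k` rows of `k` homogeneous elements, with
coefficients of small weight (elimination without fractions). -/
lemma relation (k : ℕ) : ∀ (T : ℕ → ℕ → MvPolynomial ι ℚ) (α β : ℕ → ℕ) (I : Finset ℕ) (M : ℕ),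
    k < I.card → (∀ i ∈ I, α i ≤ M) → (∀ l < k, β l ≤ M) →
    (∀ i ∈ I, ∀ l < k, T i l ∈ V w (α i + β l)) →
    ∃ (s : ℕ → MvPolynomial ι ℚ) (Γ : ℕ), Γ ≤ 3 ^ k * M ∧ (∃ i ∈ I, s i ≠ 0) ∧
      (∀ i ∈ I, s i = 0 ∨ ∃ γ, γ + α i = Γ ∧ s i ∈ V w γ) ∧
      ∀ l < k, ∑ i ∈ I, s i * T i l = 0 := by
  classical
  induction k with
  | zero =>
    intro T α β I M hI hα _ _
    obtain ⟨i₀, hi₀⟩ := Finset.card_pos.1 hI
    refine ⟨fun i => if i = i₀ then 1 else 0, α i₀, ?_, ⟨i₀, hi₀, ?_⟩, ?_, ?_⟩
    · rw [pow_zero, one_mul]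
      exact hα i₀ hi₀
    · simp
    · intro i _
      by_cases h : i = i₀
      · refine Or.inr ⟨0, by rw [h, zero_add], ?_⟩
        simp only [h, if_true]
        exact one_mem_V w
      · exact Or.inl (if_neg h)
    · intro l hl
      exact absurd hl (Nat.not_lt_zero l)
  | succ k ih =>
    intro T α β I M hI hα hβ hT
    by_cases hz : ∀ i ∈ I, T i k = 0
    · obtain ⟨s, Γ, h1, h2, h3, h4⟩ := ih T α β I M (by omega) hα (fun l hl => hβ l (by omega))
        (fun i hi l hl => hT i hi l (by omega))
      refine ⟨s, Γ, h1.trans ?_, h2, h3, fun l hl => ?_⟩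
      · exact Nat.mul_le_mul_right M (Nat.pow_le_pow_right (by norm_num) (Nat.le_succ k))
      · rcases Nat.lt_or_ge l k with h | h
        · exact h4 l h
        · have : l = k := by omega
          subst this
          exact Finset.sum_eq_zero fun i hi => by rw [hz i hi, mul_zero]
    · push Not at hz
      obtain ⟨i₀, hi₀, hne⟩ := hz
      have hcard : k < (I.erase i₀).card := by
        rw [Finset.card_erase_of_mem hi₀]
        omega
      obtain ⟨s, Γ, h1, ⟨i₁, hi₁, hs₁⟩, h3, h4⟩ := ih
        (fun i l => T i₀ k * T i l - T i k * T i₀ l) (fun i => α i₀ + β k + α i) β (I.erase i₀) (3 * M)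
        hcard (fun i hi => by
          have e1 := hα i₀ hi₀
          have e2 := hα i (Finset.mem_of_mem_erase hi)
          have e3 := hβ k (Nat.lt_succ_self k)
          show α i₀ + β k + α i ≤ 3 * M
          omega) (fun l hl => (hβ l (by omega)).trans (by omega)) (fun i hi l hl => by
          have hi' := Finset.mem_of_mem_erase hi
          refine Submodule.sub_mem _ ?_ ?_
          · have := V_mul w (hT i₀ hi₀ k (Nat.lt_succ_self k)) (hT i hi' l (by omega))
            have e : α i₀ + β k + (α i + β l) = α i₀ + β k + α i + β l := by ring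
            rwa [e] at this
          · have := V_mul w (hT i hi' k (Nat.lt_succ_self k)) (hT i₀ hi₀ l (by omega))
            have e : α i + β k + (α i₀ + β l) = α i₀ + β k + α i + β l := by ring
            rwa [e] at this)
      refine ⟨fun i => if i = i₀ then - ∑ j ∈ I.erase i₀, s j * T j k else s i * T i₀ k, Γ,
        ?_, ⟨i₁, Finset.mem_of_mem_erase hi₁, ?_⟩, ?_, ?_⟩
      · refine h1.trans (le_of_eq ?_)
        ring
      · simp only [if_neg (Finset.ne_of_mem_erase hi₁)]
        exact mul_ne_zero hs₁ hne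
      · intro i hi
        by_cases h : i = i₀
        · subst h
          simp only [if_true]
          by_cases hsum : ∑ j ∈ I.erase i, s j * T j k = 0
          · left
            rw [hsum, neg_zero]
          · right
            obtain ⟨j₀, hj₀, hj₀'⟩ := Finset.exists_ne_zero_of_sum_ne_zero hsum
            have hΓ : α i ≤ Γ := by
              rcases h3 j₀ hj₀ with h | ⟨γ, hγ, _⟩
              · rw [h, zero_mul] at hj₀'
                exact absurd rfl hj₀'
              · have : γ + (α i + β k + α j₀) = Γ := hγ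
                omega
            refine ⟨Γ - α i, Nat.sub_add_cancel hΓ, Submodule.neg_mem _ (Submodule.sum_mem _
              fun j hj => ?_)⟩
            rcases h3 j hj with h | ⟨γ, hγ, hs⟩
            · rw [h, zero_mul]
              exact Submodule.zero_mem _
            · have e : γ + (α i + β k + α j) = Γ := hγ
              have h5 := V_mul w hs (hT j (Finset.mem_of_mem_erase hj) k (Nat.lt_succ_self k))
              have e2 : γ + (α j + β k) = Γ - α i := by omega
              rwa [e2] at h5
        · simp only [if_neg h]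
          rcases h3 i (Finset.mem_erase.2 ⟨h, hi⟩) with h5 | ⟨γ, hγ, hs⟩
          · left
            rw [h5, zero_mul]
          · right
            have e : γ + (α i₀ + β k + α i) = Γ := hγ
            refine ⟨γ + (α i₀ + β k), by omega, ?_⟩
            exact V_mul w hs (hT i₀ hi₀ k (Nat.lt_succ_self k))
      · intro l hl
        rw [← Finset.add_sum_erase I _ hi₀]
        simp only [if_true]
        have h5 : ∑ x ∈ I.erase i₀, (if x = i₀ then - ∑ j ∈ I.erase i₀, s j * T j k
            else s x * T i₀ k) * T x l = ∑ x ∈ I.erase i₀, s x * T i₀ k * T x l :=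
          Finset.sum_congr rfl fun x hx => by rw [if_neg (Finset.ne_of_mem_erase hx)]
        rw [h5, neg_mul, Finset.sum_mul, ← Finset.sum_neg_distrib, ← Finset.sum_add_distrib]
        rcases Nat.lt_or_ge l k with h | h
        · rw [← h4 l h]
          refine Finset.sum_congr rfl fun j _ => ?_
          ring
        · have : l = k := by omega
          subst this
          refine Finset.sum_eq_zero fun j _ => ?_
          ring

/-- The coefficients of the remainders of `P_k ^ b t ^ b` modulo `P = P_0 + P_1 t + ⋯ + P_k t ^ k`. -/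
noncomputable def rem (P : MvPolynomial ι ℚ) (k : ℕ) : ℕ → ℕ → MvPolynomial ι ℚ
  | 0, l => if l = 0 then 1 else 0
  | b + 1, l => (if l = 0 then 0 else weightedHomogeneousComponent w k P * rem P k b (l - 1)) -
      rem P k b (k - 1) * weightedHomogeneousComponent w l P

lemma rem_mem (P : MvPolynomial ι ℚ) {k : ℕ} (hk : 0 < k) (b : ℕ) : ∀ l < k,
    rem w P k b l ∈ V w (b * (k - 1) + l) := by
  induction b with
  | zero =>
    intro l _
    rw [rem]
    split_ifs with h
    · subst h
      rw [Nat.zero_mul]
      exact one_mem_V w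
    · exact Submodule.zero_mem _
  | succ b ih =>
    intro l hl
    rw [rem]
    refine Submodule.sub_mem _ ?_ ?_
    · split_ifs with h
      · exact Submodule.zero_mem _
      · have := V_mul w (weightedHomogeneousComponent_mem w P k) (ih (l - 1) (by omega))
        have e : k + (b * (k - 1) + (l - 1)) = (b + 1) * (k - 1) + l := by
          rw [Nat.succ_mul]
          omega
        rwa [e] at this
    · have := V_mul w (ih (k - 1) (by omega)) (weightedHomogeneousComponent_mem w P l)
      have e : b * (k - 1) + (k - 1) + l = (b + 1) * (k - 1) + l := by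
        rw [Nat.succ_mul]
      rwa [e] at this

lemma rem_dvd {P : MvPolynomial ι ℚ} {k : ℕ} (hk : 0 < k) (hP : P ∈ W w k) (b : ℕ) :
    P ∣ weightedHomogeneousComponent w k P ^ b - ∑ l ∈ Finset.range k, rem w P k b l := by
  induction b with
  | zero =>
    have : ∑ l ∈ Finset.range k, rem w P k 0 l = 1 := by
      rw [Finset.sum_eq_single 0]
      · rw [rem, if_pos rfl]
      · intro l _ hl
        rw [rem, if_neg hl]
      · intro h
        exact absurd (Finset.mem_range.2 hk) h
    rw [this, pow_zero, sub_self]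
    exact dvd_zero P
  | succ b ih =>
    obtain ⟨k', rfl⟩ : ∃ k', k = k' + 1 := ⟨k - 1, by omega⟩
    obtain ⟨Q, hQ⟩ := ih
    have h1 := sum_comp w P hP
    rw [Finset.sum_range_succ] at h1
    have h2 : ∑ l ∈ Finset.range (k' + 1), rem w P (k' + 1) (b + 1) l =
        weightedHomogeneousComponent w (k' + 1) P * (∑ l ∈ Finset.range k', rem w P (k' + 1) b l) -
        rem w P (k' + 1) b k' * ∑ l ∈ Finset.range (k' + 1), weightedHomogeneousComponent w l P := by
      have e : ∀ l, rem w P (k' + 1) (b + 1) l = (if l = 0 then 0 else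
          weightedHomogeneousComponent w (k' + 1) P * rem w P (k' + 1) b (l - 1)) -
          rem w P (k' + 1) b k' * weightedHomogeneousComponent w l P := fun l => by
        rw [rem, Nat.add_sub_cancel]
      rw [Finset.sum_congr rfl fun l _ => e l, Finset.sum_sub_distrib, ← Finset.mul_sum,
        Finset.sum_range_succ']
      simp [Finset.mul_sum]
    rw [Finset.sum_range_succ] at hQ
    have h3 : weightedHomogeneousComponent w (k' + 1) P ^ (b + 1) -
        ∑ l ∈ Finset.range (k' + 1), rem w P (k' + 1) (b + 1) l =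
        P * (weightedHomogeneousComponent w (k' + 1) P * Q + rem w P (k' + 1) b k') := by
      rw [h2, pow_succ]
      linear_combination weightedHomogeneousComponent w (k' + 1) P * hQ -
        rem w P (k' + 1) b k' * h1
    exact ⟨_, h3⟩

/-- **Multiples with few weights.** Let `P` have top weight `k > 0`, and let `I` be a set of more
than `k` numbers which are at most `B`. Then `P` divides a nonzero polynomial with weights in
`Γ + I`, for some `Γ ≤ 3 ^ k k (B + 1)`. -/
lemma exists_multiple_mem {P : MvPolynomial ι ℚ} {k : ℕ} (hk : 0 < k) (hP : P ∈ W w k)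
    (hPk : weightedHomogeneousComponent w k P ≠ 0) (I : Finset ℕ) (hI : k < I.card) (B : ℕ)
    (hB : ∀ b ∈ I, b ≤ B) :
    ∃ (R : MvPolynomial ι ℚ) (Γ : ℕ), R ≠ 0 ∧ P ∣ R ∧ Γ ≤ 3 ^ k * (k * (B + 1)) ∧
      R ∈ U w {n | ∃ b ∈ I, n = Γ + b} := by
  classical
  obtain ⟨s, Γ, h1, ⟨b₁, hb₁, hs₁⟩, h3, h4⟩ := relation w k (fun b l => rem w P k b l)
    (fun b => b * (k - 1)) (fun l => l) I (k * (B + 1)) hI
    (fun b hb => by
      have := hB b hb
      calc b * (k - 1) ≤ (B + 1) * k := Nat.mul_le_mul (by omega) (Nat.sub_le k 1)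
        _ = k * (B + 1) := mul_comm _ _)
    (fun l hl => by
      show l ≤ k * (B + 1)
      exact hl.le.trans (Nat.le_mul_of_pos_right k (Nat.succ_pos B)))
    (fun b _ l hl => rem_mem w P hk b l hl)
  obtain ⟨p, hp⟩ : ∃ p, p = weightedHomogeneousComponent w k P := ⟨_, rfl⟩
  have hmem (b : ℕ) (hb : b ∈ I) : s b * p ^ b ∈ V w (Γ + b) := by
    rcases h3 b hb with h | ⟨γ, hγ, hs⟩
    · rw [h, zero_mul]
      exact Submodule.zero_mem _
    · have h5 := V_mul w hs (V_pow w (weightedHomogeneousComponent_mem w P k) b)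
      have e : γ + b * k = Γ + b := by
        have h6 : γ + b * (k - 1) = Γ := hγ
        obtain ⟨k', rfl⟩ : ∃ k', k = k' + 1 := ⟨k - 1, by omega⟩
        rw [Nat.add_sub_cancel] at h6
        rw [Nat.mul_succ]
        omega
      rw [e] at h5
      rw [hp]
      exact h5
  refine ⟨∑ b ∈ I, s b * p ^ b, Γ, ?_, ?_, h1, ?_⟩
  · intro h0
    have h5 : weightedHomogeneousComponent w (Γ + b₁) (∑ b ∈ I, s b * p ^ b) = s b₁ * p ^ b₁ := by
      rw [map_sum, Finset.sum_eq_single b₁]
      · exact IsWeightedHomogeneous.weightedHomogeneousComponent_same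
          ((mem_weightedHomogeneousSubmodule ℚ w _ _).1 (hmem b₁ hb₁))
      · intro b hb hbb
        exact IsWeightedHomogeneous.weightedHomogeneousComponent_ne _
          ((mem_weightedHomogeneousSubmodule ℚ w _ _).1 (hmem b hb)) (by omega)
      · intro h
        exact absurd hb₁ h
    rw [h0, map_zero] at h5
    refine mul_ne_zero hs₁ (pow_ne_zero b₁ ?_) h5.symm
    rw [hp]
    exact hPk
  · have h5 : ∑ b ∈ I, s b * p ^ b =
        ∑ b ∈ I, s b * (p ^ b - ∑ l ∈ Finset.range k, rem w P k b l) := by
      have h6 : ∑ b ∈ I, s b * ∑ l ∈ Finset.range k, rem w P k b l = 0 := by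
        rw [Finset.sum_congr rfl fun b _ => Finset.mul_sum _ _ _, Finset.sum_comm]
        exact Finset.sum_eq_zero fun l hl => h4 l (Finset.mem_range.1 hl)
      rw [Finset.sum_congr rfl fun b _ => mul_sub _ _ _, Finset.sum_sub_distrib, h6, sub_zero]
    rw [h5]
    refine Finset.dvd_sum fun b _ => Dvd.dvd.mul_left ?_ _
    rw [hp]
    exact rem_dvd w hk hP b
  · refine Submodule.sum_mem _ fun b hb => ?_
    have h5 := hmem b hb
    rw [V_eq_U] at h5
    refine U_mono w ?_ h5
    rintro n hn
    exact ⟨b, hb, hn⟩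

end Pool.Agent.V7H56.HW
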