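import Pool.Agent.V7H56.HW.Alg

/-!
# Sparse sets of weights
-/

set_option autoImplicit false

open MvPolynomial Module Filter

namespace Pool.Agent.V7H56.HW

open Pool.Agent.V7H32.MZ Pool.Agent.V7H32.MH

/-- `A` has arbitrarily large clusters: for all `k`, `N` and `ε > 0` there are more than `k`
elements `≥ N` of `A` such that the ratio of any two of them is at most `1 + ε`. -/
def Clustered (A : Set ℕ) : Prop :=
  ∀ (k N : ℕ) (ε : ℝ), 0 < ε → ∃ I : Finset ℕ, k < I.card ∧ (∀ n ∈ I, n ∈ A ∧ N ≤ n) ∧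
    ∀ m ∈ I, ∀ n ∈ I, (n : ℝ) ≤ (1 + ε) * m

/-- For each weight `n` in `A` all but an exponentially small proportion of the words of weight
`n` belong to `S`. -/
def AlmostAll (A : Set ℕ) (S : Set (List ℕ)) : Prop :=
  ∃ θ K : ℝ, 0 ≤ θ ∧ θ < 1 ∧ ∀ n ∈ A,
    ({l : List ℕ | IsWord l ∧ l.sum = n ∧ l ∉ S}.ncard : ℝ) ≤
      K * θ ^ n * {l : List ℕ | IsWord l ∧ l.sum = n}.ncard

section top

variable {ι : Type} (w : ι → ℕ)

lemma comp_top_ne {P : MvPolynomial ι ℚ} (hP : P ≠ 0) :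
    weightedHomogeneousComponent w (top w P) P ≠ 0 := by
  rw [← coeff_Phi]
  exact Polynomial.leadingCoeff_ne_zero.2 (Phi_ne_zero w hP)

lemma top_X (i : ι) : top w (X i) = w i := by
  unfold top Phi
  rw [aeval_X]
  exact Polynomial.natDegree_C_mul_X_pow _ _ (X_ne_zero i)

end top

variable (M : Motivic)

/-- A relation produces relations in all clusters. -/
lemma cluster_relations {P : MvPolynomial M.ι ℚ} (hP : P ≠ 0) (hP0 : aeval M.z P = 0) :
    ∃ k, 0 < k ∧ ∀ (I : Finset ℕ) (B a : ℕ), k < I.card → (∀ b ∈ I, b ≤ B) →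
      3 ^ k * (k * (B + 1)) ≤ a → ∃ Γ ≤ 3 ^ k * (k * (B + 1)),
      finrank ℚ ((U M.w ((I.image (fun b => a + b) : Finset ℕ) : Set ℕ)).map (f M)) + d (a - Γ) ≤
        ∑ n ∈ I.image (fun b => a + b), d n := by
  classical
  obtain ⟨i, hi, _⟩ := M.gen 2 (Or.inl rfl)
  have hP' : P * X i ≠ 0 := mul_ne_zero hP (X_ne_zero i)
  have hk : top M.w (P * X i) = top M.w P + 2 := by
    rw [top_mul M.w hP (X_ne_zero i), top_X, hi]
  refine ⟨top M.w (P * X i), by omega, fun I B a hI hB ha => ?_⟩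
  obtain ⟨R, Γ, hR, ⟨Q, hQ⟩, hΓ, hRU⟩ := exists_multiple_mem M.w (P := P * X i) (by omega)
    ((mem_W_iff M.w).2 le_rfl) (comp_top_ne M.w hP') I hI B hB
  refine ⟨Γ, hΓ, ?_⟩
  have hR0 : aeval M.z R = 0 := by rw [hQ, map_mul, map_mul, hP0, zero_mul, zero_mul]
  have h0 := finite_U M (I.image (fun b => a + b))
  have h1 : FiniteDimensional ℚ (U M.w ((I.image (fun b => a + b) : Finset ℕ) : Set ℕ) ⊓
      LinearMap.ker (f M) : Submodule ℚ _) := Submodule.finiteDimensional_inf_left _ _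
  have h2 := finrank_map_add M (U M.w ((I.image (fun b => a + b) : Finset ℕ) : Set ℕ))
  rw [finrank_U] at h2
  rw [← h2]
  refine Nat.add_le_add_left ?_ _
  rw [← finrank_V M (a - Γ)]
  let μ : MvPolynomial M.ι ℚ →ₗ[ℚ] MvPolynomial M.ι ℚ := LinearMap.mulLeft ℚ R
  have hμ : Function.Injective μ := fun a b h => mul_left_cancel₀ hR h
  rw [LinearEquiv.finrank_eq (Submodule.equivMapOfInjective μ hμ _)]
  refine Submodule.finrank_mono ?_
  rintro _ ⟨G, hG, rfl⟩
  constructor
  · rw [SetLike.mem_coe, V_eq_U] at hG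
    refine U_mul M.w ?_ hRU hG
    rintro x ⟨b, hb, rfl⟩ y hy
    rw [Set.mem_singleton_iff] at hy
    rw [Finset.mem_coe, Finset.mem_image]
    exact ⟨b, hb, by omega⟩
  · change aeval M.z (R * G) = 0
    rw [map_mul, hR0, zero_mul]

/-- The words of weight `n` outside `S`. -/
def out (S : Set (List ℕ)) (n : ℕ) : Set (List ℕ) := {l : List ℕ | IsWord l ∧ l.sum = n ∧ l ∉ S}

lemma out_finite (S : Set (List ℕ)) (n : ℕ) : (out S n).Finite :=
  (finite_words_eq n).subset fun _ hl => ⟨hl.1, hl.2.1⟩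

lemma count (S : Set (List ℕ)) (I : Finset ℕ) : ∑ n ∈ I, d n ≤
    {l ∈ S | IsWord l ∧ l.sum ∈ I}.ncard + ∑ n ∈ I, (out S n).ncard := by
  classical
  obtain ⟨T, hT⟩ : ∃ T : Set (List ℕ), T = {l ∈ S | IsWord l ∧ l.sum ∈ I} := ⟨_, rfl⟩
  have hfin : T.Finite := by
    refine (Finset.finite_toSet (I.biUnion words)).subset fun l hl => ?_
    rw [hT] at hl
    rw [Finset.mem_coe, Finset.mem_biUnion]
    exact ⟨l.sum, hl.2.2, (mem_words _ l).2 ⟨hl.2.1, rfl⟩⟩
  rw [← hT]
  have h1 : (I.biUnion words).card = ∑ n ∈ I, d n := by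
    rw [Finset.card_biUnion]
    · exact Finset.sum_congr rfl fun n _ => card_words n
    · intro n _ m _ hnm
      rw [Function.onFun, Finset.disjoint_left]
      intro l h1 h2
      exact hnm (((mem_words n l).1 h1).2.symm.trans ((mem_words m l).1 h2).2)
  rw [← h1, Set.ncard_eq_toFinset_card T hfin]
  have h2 : ∑ n ∈ I, (out S n).ncard = ∑ n ∈ I, (out_finite S n).toFinset.card :=
    Finset.sum_congr rfl fun n _ => Set.ncard_eq_toFinset_card _ (out_finite S n)
  rw [h2]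
  refine le_trans (Finset.card_le_card (t := hfin.toFinset ∪
    I.biUnion fun n => (out_finite S n).toFinset) ?_)
    ((Finset.card_union_le _ _).trans (Nat.add_le_add_left Finset.card_biUnion_le _))
  intro l hl
  rw [Finset.mem_biUnion] at hl
  obtain ⟨n, hn, hl⟩ := hl
  obtain ⟨h3, h4⟩ := (mem_words _ l).1 hl
  rw [Finset.mem_union]
  by_cases h5 : l ∈ S
  · left
    rw [Set.Finite.mem_toFinset, hT]
    exact ⟨h5, h3, h4 ▸ hn⟩
  · right
    rw [Finset.mem_biUnion]
    exact ⟨n, hn, (Set.Finite.mem_toFinset _).2 ⟨h3, h4, h5⟩⟩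

include M in
/-- **Sparse sets of weights.** -/
theorem sparse (hB : Brown) {A : Set ℕ} (hA : Clustered A) (S : Set (List ℕ))
    (hS : ∀ l ∈ S, IsWord l ∧ l.sum ∈ A) (hd : AlmostAll A S) :
    HoffmanBasis ↔ LinearIndependent ℚ (fun l : S => val l) := by
  classical
  constructor
  · intro h
    have h1 : LinearIndepOn ℚ val {l : List ℕ | IsWord l} := h.1
    exact h1.mono fun l hl => (hS l hl).1
  · intro hLI
    refine hoffman_of_zagier M hB ((zagier_iff_injective M).2 ?_)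
    by_contra hcon
    push Not at hcon
    obtain ⟨P, hP0, hP⟩ := hcon
    obtain ⟨k, hk, hrel⟩ := cluster_relations M hP hP0
    obtain ⟨θ, K, hθ0, hθ1, hK⟩ := hd
    -- the constants
    obtain ⟨t, ht⟩ := exists_pow_lt_of_lt_one (show (0 : ℝ) < 1 / 8 by norm_num) hθ1
    obtain ⟨L, hL⟩ : ∃ L, L = max t 3 := ⟨_, rfl⟩
    have hL3 : 3 ≤ L := hL ▸ le_max_right t 3
    have hLθ : θ ^ L ≤ 1 / 8 :=
      (pow_le_pow_of_le_one hθ0 hθ1.le (hL ▸ le_max_left t 3)).trans ht.le
    obtain ⟨i₀, hi₀⟩ := pow_unbounded_of_one_lt K (show (1 : ℝ) < 2 by norm_num)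
    have hout (i : ℕ) (hi : i₀ ≤ i) (n : ℕ) (hn : n ∈ A) (hin : L * i ≤ n) :
        ((out S n).ncard : ℝ) ≤ (1 / 4) ^ i * d n := by
      have h1 := hK n hn
      rw [ncard_eq] at h1
      refine h1.trans (mul_le_mul_of_nonneg_right ?_ (Nat.cast_nonneg _))
      have h2 : θ ^ n ≤ (1 / 8) ^ i := by
        calc θ ^ n ≤ θ ^ (L * i) := pow_le_pow_of_le_one hθ0 hθ1.le hin
          _ = (θ ^ L) ^ i := pow_mul _ _ _
          _ ≤ _ := pow_le_pow_left₀ (pow_nonneg hθ0 L) hLθ i
      have h3 : K ≤ 2 ^ i := hi₀.le.trans (pow_le_pow_right₀ (by norm_num) hi)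
      calc K * θ ^ n ≤ 2 ^ i * θ ^ n := mul_le_mul_of_nonneg_right h3 (pow_nonneg hθ0 n)
        _ ≤ 2 ^ i * (1 / 8) ^ i := mul_le_mul_of_nonneg_left h2 (by positivity)
        _ = (1 / 4) ^ i := by
          rw [← mul_pow]
          norm_num
    obtain ⟨c, hc⟩ : ∃ c, c = 3 ^ k * k := ⟨_, rfl⟩
    obtain ⟨I₁, hI₁, hI₁A, hI₁r⟩ := hA k (L * (c + k + 1 + i₀ + 1))
      (1 / (((1 + c) * L : ℕ) : ℝ)) (by
        have : 0 < (1 + c) * L := Nat.mul_pos (by omega) (by omega)
        have h' : (0 : ℝ) < (((1 + c) * L : ℕ) : ℝ) := by exact_mod_cast this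
        positivity)
    obtain ⟨I', hI'sub, hI'card⟩ := Finset.exists_subset_card_eq (Nat.succ_le_of_lt hI₁)
    have hne : I'.Nonempty := by
      rw [← Finset.card_pos, hI'card]
      exact Nat.succ_pos k
    obtain ⟨a, ha⟩ : ∃ a, a = I'.min' hne := ⟨_, rfl⟩
    obtain ⟨B, hBdef⟩ : ∃ B, B = I'.max' hne - a := ⟨_, rfl⟩
    have haI : a ∈ I' := ha ▸ Finset.min'_mem I' hne
    have hmaxI : I'.max' hne ∈ I' := Finset.max'_mem I' hne
    have ha_le : ∀ n ∈ I', a ≤ n := fun n hn => ha ▸ Finset.min'_le I' n hn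
    have hle_max : ∀ n ∈ I', n ≤ a + B := fun n hn => by
      have h1 := Finset.le_max' I' n hn
      omega
    have hbig : L * (c + k + 1 + i₀ + 1) ≤ a := (hI₁A a (hI'sub haI)).2
    have hratio : (1 + c) * L * B ≤ a := by
      have h1 := hI₁r a (hI'sub haI) _ (hI'sub hmaxI)
      have h2 : ((I'.max' hne : ℕ) : ℝ) = a + B := by
        rw [hBdef, Nat.cast_sub (ha_le _ hmaxI)]
        ring
      rw [h2] at h1
      have h3 : 0 < (1 + c) * L := Nat.mul_pos (by omega) (by omega)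
      have h3' : (0 : ℝ) < (((1 + c) * L : ℕ) : ℝ) := by exact_mod_cast h3
      have h4 : (B : ℝ) ≤ 1 / (((1 + c) * L : ℕ) : ℝ) * a := by linarith
      have h5 : (((1 + c) * L : ℕ) : ℝ) * B ≤ a := by
        calc (((1 + c) * L : ℕ) : ℝ) * B ≤ (((1 + c) * L : ℕ) : ℝ) *
              (1 / (((1 + c) * L : ℕ) : ℝ) * a) := mul_le_mul_of_nonneg_left h4 h3'.le
          _ = a := by field_simp
      exact_mod_cast h5
    obtain ⟨i, hi⟩ : ∃ i, i = a / L := ⟨_, rfl⟩
    have hLpos : 0 < L := by omega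
    have hi1 : c + k + 1 + i₀ + 1 ≤ i := by
      rw [hi, Nat.le_div_iff_mul_le hLpos, mul_comm]
      exact hbig
    have hi2 : (1 + c) * B ≤ i := by
      rw [hi, Nat.le_div_iff_mul_le hLpos]
      calc (1 + c) * B * L = (1 + c) * L * B := by ring
        _ ≤ a := hratio
    have hi3 : L * i ≤ a := by
      rw [hi]
      exact Nat.mul_div_le a L
    have hi4 : 3 * i ≤ a := (Nat.mul_le_mul_right i hL3).trans hi3
    have hcB : 3 ^ k * (k * (B + 1)) = c * B + c := by
      rw [hc]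
      ring
    have hcB' : (1 + c) * B = B + c * B := by ring
    rw [hcB'] at hi2
    have himg : (I'.image (fun n => n - a)).image (fun b => a + b) = I' := by
      rw [Finset.image_image]
      conv_rhs => rw [← Finset.image_id (s := I')]
      refine Finset.image_congr fun n hn => ?_
      have := ha_le n hn
      simp only [Function.comp, id]
      omega
    have hcardimg : k < (I'.image (fun n => n - a)).card := by
      rw [Finset.card_image_of_injOn, hI'card]
      · exact Nat.lt_succ_self k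
      · intro x hx y hy hxy
        have h1 := ha_le x hx
        have h2 := ha_le y hy
        have h3 : x - a = y - a := hxy
        omega
    obtain ⟨Γ, hΓ, hdim⟩ := hrel (I'.image (fun n => n - a)) B a hcardimg
      (fun b hb => by
        obtain ⟨n, hn, rfl⟩ := Finset.mem_image.1 hb
        have := hle_max n hn
        show n - a ≤ B
        omega)
      (by rw [hcB]; omega)
    rw [himg] at hdim
    rw [hcB] at hΓ
    -- the words in `S`
    have hT : {l ∈ S | IsWord l ∧ l.sum ∈ I'}.ncard ≤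
        finrank ℚ ((U M.w (I' : Set ℕ)).map (f M)) := by
      have h0 := finite_U M I'
      refine ncard_le ((finite_words_le (a + B)).subset fun l hl =>
        ⟨hl.2.1, hle_max _ hl.2.2⟩) ?_ ?_
      · intro l hl
        exact Z_le_map M (Finset.mem_coe.2 hl.2.2) (val_mem hB hl.2.1)
      · have h3 : LinearIndepOn ℚ val S := hLI
        exact h3.mono fun l hl => hl.1
    have hcount := count S I'
    have h5 : d (a - Γ) ≤ ∑ n ∈ I', (out S n).ncard := by omega
    obtain ⟨N, hN⟩ : ∃ N, a - Γ = N + 2 := ⟨a - Γ - 2, by omega⟩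
    have hdn : ∀ n ∈ I', (d n : ℝ) ≤ 2 ^ (B + Γ) * d (N + 2) := by
      intro n hn
      have h6 := ha_le n hn
      have h7 := hle_max n hn
      obtain ⟨m, rfl⟩ : ∃ m, n = N + 2 + m := ⟨n - (N + 2), by omega⟩
      have h8 : (d (N + 2 + m) : ℝ) ≤ 2 ^ m * d (N + 2) := by exact_mod_cast d_add_le N m
      refine h8.trans (mul_le_mul_of_nonneg_right ?_ (Nat.cast_nonneg _))
      exact pow_le_pow_right₀ (by norm_num) (by omega)
    have hdpos : (0 : ℝ) < d (N + 2) := by exact_mod_cast d_pos N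
    have h6 : (d (N + 2) : ℝ) ≤ (k + 1) * ((1 / 4) ^ i * (2 ^ (B + Γ) * d (N + 2))) := by
      rw [hN] at h5
      calc (d (N + 2) : ℝ) ≤ ∑ n ∈ I', ((out S n).ncard : ℝ) := by exact_mod_cast h5
        _ ≤ ∑ n ∈ I', (1 / 4) ^ i * (2 ^ (B + Γ) * (d (N + 2) : ℝ)) := by
          refine Finset.sum_le_sum fun n hn => ?_
          refine (hout i (by omega) n (hI₁A n (hI'sub hn)).1 (hi3.trans (ha_le n hn))).trans ?_
          exact mul_le_mul_of_nonneg_left (hdn n hn) (by positivity)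
        _ = _ := by
          rw [Finset.sum_const, hI'card, nsmul_eq_mul]
          push_cast
          ring
    have h7 : ((k : ℝ) + 1) < 2 ^ (k + 1) := by
      have := Nat.lt_two_pow_self (n := k + 1)
      exact_mod_cast this
    have h8 : (2 : ℝ) ^ (k + 1) * 2 ^ (B + Γ) ≤ 4 ^ i := by
      have e : (4 : ℝ) ^ i = 2 ^ (2 * i) := by
        rw [pow_mul]
        norm_num
      rw [← pow_add, e]
      exact pow_le_pow_right₀ (by norm_num) (by omega)
    have h9 : ((k : ℝ) + 1) * 2 ^ (B + Γ) < 4 ^ i :=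
      lt_of_lt_of_le (mul_lt_mul_of_pos_right h7 (by positivity)) h8
    have h10 : ((k : ℝ) + 1) * 2 ^ (B + Γ) * (1 / 4) ^ i < 1 := by
      rw [div_pow, one_pow, mul_one_div, div_lt_one (by positivity)]
      exact h9
    have h11 : ((k : ℝ) + 1) * ((1 / 4) ^ i * (2 ^ (B + Γ) * d (N + 2))) =
        (((k : ℝ) + 1) * 2 ^ (B + Γ) * (1 / 4) ^ i) * d (N + 2) := by ring
    rw [h11] at h6
    nlinarith

end Pool.Agent.V7H56.HW
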